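import Pool.Agent.R302.OpenSemi

open Filter Topology Metric

namespace Pool.Agent.Results.MP_b2b51b_an.OpenSemigroup

open Pool.Agent.R302.OpenSemi

/-- There are a commutative unital complex Banach algebra `A` and an element `a` of `A` such that
for every sequence `r` in `(0, 1]` there is a proper open subsemigroup `S` of `A` containing all
powers `a ^ n`, `n ≥ 1`, for which the distance of `a ^ n` to the complement of `S` is exactly
`r n` for all `n ≥ 1`. In particular there is an open semigroup for which the sequence of the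
`n`-th roots of these distances does not converge. -/
theorem result : ∃ (A : Type) (_ : NormedCommRing A) (_ : NormedAlgebra ℂ A)
    (_ : NormOneClass A) (_ : CompleteSpace A) (a : A),
    (∀ r : ℕ → ℝ, (∀ n, 0 < r n) → (∀ n, r n ≤ 1) →
      ∃ S : Set A, IsOpen S ∧ (∀ x ∈ S, ∀ y ∈ S, x * y ∈ S) ∧ S ≠ Set.univ ∧
        ∀ n : ℕ, 1 ≤ n → a ^ n ∈ S ∧ infDist (a ^ n) Sᶜ = r n) ∧
    (∃ S : Set A, IsOpen S ∧ (∀ x ∈ S, ∀ y ∈ S, x * y ∈ S) ∧ S ≠ Set.univ ∧ a ∈ S ∧
      ¬ ∃ l : ℝ, Tendsto (fun n : ℕ => (infDist (a ^ n) Sᶜ) ^ (1 / (n : ℝ))) atTop (𝓝 l)) := by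
  have hcomp : CompleteSpace AS := isClosed_AS.completeSpace_coe
  have hone : NormOneClass AS := ⟨by
    show ‖((1 : X), (1 : X))‖ = 1
    rw [Prod.norm_def]; simp⟩
  have key : ∀ r : ℕ → ℝ, (∀ n, 0 < r n) → (∀ n, r n ≤ 1) →
      ∃ S : Set AS, IsOpen S ∧ (∀ x ∈ S, ∀ y ∈ S, x * y ∈ S) ∧ S ≠ Set.univ ∧
        ∀ n : ℕ, 1 ≤ n → aa ^ n ∈ S ∧ infDist (aa ^ n) Sᶜ = r n := by
    intro r hr hr1
    refine ⟨SS r, isOpen_SS r, fun x hx y hy => mul_mem_SS hr hx hy, ?_, fun n hn => ⟨?_, ?_⟩⟩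
    · intro h
      have h0 : (0 : AS) ∈ SS r := by rw [h]; trivial
      exact h0.1 1 (by simp) rfl
    · exact near_mem hr1 hn (by rw [dist_self]; exact hr n)
    · exact infDist_pow hr hr1 hn
  refine ⟨AS, inferInstance, inferInstance, hone, hcomp, aa, key, ?_⟩
  obtain ⟨S, h1, h2, h3, h4⟩ := key (fun n => if Even n then 1 else (1 / 2) ^ n)
    (fun n => by split_ifs <;> positivity)
    (fun n => by
      split_ifs
      · exact le_rfl
      · exact pow_le_one₀ (by norm_num) (by norm_num))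
  refine ⟨S, h1, h2, h3, by simpa using (h4 1 le_rfl).1, ?_⟩
  rintro ⟨l, hl⟩
  have e1 : Tendsto (fun k : ℕ => 2 * (k + 1)) atTop atTop :=
    tendsto_atTop_mono (fun k => by simp only [id]; omega) tendsto_id
  have e2 : Tendsto (fun k : ℕ => 2 * k + 1) atTop atTop :=
    tendsto_atTop_mono (fun k => by simp only [id]; omega) tendsto_id
  have l1 : l = 1 := by
    refine tendsto_nhds_unique (hl.comp e1) ?_
    refine tendsto_const_nhds.congr fun k => ?_
    simp only [Function.comp_apply]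
    rw [(h4 (2 * (k + 1)) (by omega)).2, if_pos (even_two_mul _), Real.one_rpow]
  have l2 : l = 1 / 2 := by
    refine tendsto_nhds_unique (hl.comp e2) ?_
    refine tendsto_const_nhds.congr fun k => ?_
    simp only [Function.comp_apply]
    rw [(h4 (2 * k + 1) (by omega)).2, if_neg (by simp)]
    rw [← Real.rpow_natCast, ← Real.rpow_mul (by norm_num)]
    have : (((2 * k + 1 : ℕ) : ℝ)) * (1 / ((2 * k + 1 : ℕ) : ℝ)) = 1 := by
      have : (((2 * k + 1 : ℕ) : ℝ)) ≠ 0 := by positivity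
      field_simp
    rw [this, Real.rpow_one]
  rw [l1] at l2
  norm_num at l2

end Pool.Agent.Results.MP_b2b51b_an.OpenSemigroup
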